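import Pool.Agent.R336.HessG

/-!
# MP_51245c_nt: exactly twenty-seven of the NRS-matrices `H(m, n)` are not ς-reduced

The twenty-seven pairs `(m, n)` are listed in `list27`. Proof: an upper Hessenberg matrix conjugate
to `H(m, n)` of complexity less than `12` gives an element `γ = x / α + y + z α` with
`0 < |N(γ)| ≤ 198`, `3 ∣ x + z`, `6 ∣ y + z - x`, where `α` is the eigenvalue. Multiplication by
powers of the unit `α` makes `γ` balanced; elementary estimates then bound `x`, `y`, `z` and force
`z = 0` (which is impossible) when the trace exceeds `1600`; the remaining cases are checked one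
by one by the kernel. The case `|α| < 1` is reduced to a second family of pairs.
-/

set_option autoImplicit false

namespace Pool.Agent.Results.MP_51245c_nt.ExactlyTwentySeven

open Matrix Polynomial

/-- The matrix `H(m, n)`. -/
def H (m n : ℤ) : Matrix (Fin 3) (Fin 3) ℤ :=
  !![1, 1, m + n; 2, 1, 2 * m + n; 0, 3, 3 * n - 1]

/-- upper Hessenberg matrices -/
def IsHessenberg (A : Matrix (Fin 3) (Fin 3) ℤ) : Prop := A 2 0 = 0

/-- the Hessenberg complexity `ς(A) = a₂₁² |a₃₂|` -/
def complexity (A : Matrix (Fin 3) (Fin 3) ℤ) : ℤ := A 1 0 ^ 2 * |A 2 1|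

/-- `B` is integer conjugate to `A`: `B = X A X⁻¹` with `X` in `GL(3, ℤ)`. -/
def IntConj (A B : Matrix (Fin 3) (Fin 3) ℤ) : Prop :=
  ∃ X : GL (Fin 3) ℤ, B = (X : Matrix (Fin 3) (Fin 3) ℤ) * A *
    ((X⁻¹ : GL (Fin 3) ℤ) : Matrix (Fin 3) (Fin 3) ℤ)

/-- `A` is ς-reduced: `ς(A) ≤ ς(B)` for every integer upper Hessenberg matrix `B` which is integer
conjugate to `A`. -/
def IsReduced (A : Matrix (Fin 3) (Fin 3) ℤ) : Prop :=
  ∀ B : Matrix (Fin 3) (Fin 3) ℤ, IsHessenberg B → IntConj A B → complexity A ≤ complexity B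

/-- `A` is NRS: its characteristic polynomial is irreducible over `ℚ` and has negative
discriminant. -/
def IsNRS (A : Matrix (Fin 3) (Fin 3) ℤ) : Prop :=
  Irreducible (A.charpoly.map (Int.castRingHom ℚ)) ∧ A.charpoly.discr < 0

/-- The twenty-seven pairs `(m, n)`. -/
def list27 : Finset (ℤ × ℤ) :=
  {(-21, -7), (-8, -4), (-6, -3), (-5, -3), (-4, -2), (-3, -2), (-3, -1), (-2, -1), (-2, 0), (-1, 0), (-2, 1), (-1, 1), (0, 1), (-2, 2), (0, 2), (1, 2), (0, 3), (1, 3), (2, 3), (1, 4), (2, 4), (-9, 5), (1, 5), (3, 5), (2, 8), (10, 27), (16, 27)}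

open Pool.Agent.R336.Hess Pool.Agent.R336.Hess.C12

lemma charpoly_H (m n : ℤ) : (H m n).charpoly = chi ℤ (3 * n + 1) (6 * m - 3 * n + 3) := by
  rw [Matrix.charpoly, Matrix.det_fin_three]
  simp [H, chi]
  ring

lemma discr_H (m n : ℤ) : (H m n).charpoly.discr = disc (3 * n + 1) (6 * m - 3 * n + 3) := by
  rw [charpoly_H, discr_of_degree_eq_three]
  · generalize 3 * n + 1 = a
    generalize 6 * m - 3 * n + 3 = b
    have c0 : (chi ℤ a b).coeff 0 = -1 := by simp [chi]
    have c1 : (chi ℤ a b).coeff 1 = -b := by simp [chi, coeff_X_pow, coeff_one]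
    have c2 : (chi ℤ a b).coeff 2 = -a := by
      simp only [chi, coeff_sub, coeff_C_mul, coeff_X_pow, coeff_X, coeff_one, Int.cast_id]
      norm_num
    have c3 : (chi ℤ a b).coeff 3 = 1 := by
      simp only [chi, coeff_sub, coeff_C_mul, coeff_X_pow, coeff_X, coeff_one, Int.cast_id]
      norm_num
    rw [c0, c1, c2, c3]
    unfold disc
    ring
  · rw [degree_eq_natDegree (chi_monic ℤ _ _).ne_zero, chi_natDegree]
    rfl

lemma complexity_H (m n : ℤ) : complexity (H m n) = 12 := by
  unfold complexity
  simp [H]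

/-- the determinant in terms of the norm form -/
lemma det_H (m n : ℤ) (v : Fin 3 → ℤ) :
    18 * (Matrix.of ![v, H m n *ᵥ v, ((H m n) ^ 2) *ᵥ v]).det =
      N (3 * n + 1) (6 * m - 3 * n + 3) (v 2)
        (6 * v 0 - 3 * v 1 + (6 * m - 3 * n + 2) * v 2) (3 * v 1 + (3 * n - 1) * v 2) := by
  rw [pow_two, ← Matrix.mulVec_mulVec, Matrix.det_fin_three]
  simp [H, dotProduct, Fin.sum_univ_three, N]
  ring

/-- the complexity of a conjugate Hessenberg matrix as a determinant -/
lemma complexity_conj {A B : Matrix (Fin 3) (Fin 3) ℤ} {X : GL (Fin 3) ℤ} (hB : IsHessenberg B)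
    (hX : B = (X : Matrix (Fin 3) (Fin 3) ℤ) * A * ((X⁻¹ : GL (Fin 3) ℤ) : Matrix _ _ ℤ)) :
    ∃ v : Fin 3 → ℤ, v ≠ 0 ∧
      complexity B = |(Matrix.of ![v, A *ᵥ v, (A ^ 2) *ᵥ v]).det| := by
  obtain ⟨P, hP⟩ : ∃ P : Matrix (Fin 3) (Fin 3) ℤ, P = ((X⁻¹ : GL (Fin 3) ℤ) : Matrix _ _ ℤ) :=
    ⟨_, rfl⟩
  obtain ⟨Q, hQ⟩ : ∃ Q : Matrix (Fin 3) (Fin 3) ℤ, Q = (X : Matrix (Fin 3) (Fin 3) ℤ) := ⟨_, rfl⟩
  have hPQ : P * Q = 1 := by
    rw [hP, hQ, ← Units.val_mul, inv_mul_cancel, Units.val_one]
  have hQP : Q * P = 1 := by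
    rw [hP, hQ, ← Units.val_mul, mul_inv_cancel, Units.val_one]
  rw [← hP, ← hQ] at hX
  have hAP : A * P = P * B := by
    rw [hX, ← mul_assoc, ← mul_assoc, hPQ, one_mul]
  have hA2P : A ^ 2 * P = P * B ^ 2 := by
    rw [pow_two, mul_assoc, hAP, ← mul_assoc, hAP, mul_assoc, ← pow_two]
  obtain ⟨e, he⟩ : ∃ e : Fin 3 → ℤ, e = ![1, 0, 0] := ⟨_, rfl⟩
  refine ⟨P *ᵥ e, ?_, ?_⟩
  · intro h0
    have h1 : Q *ᵥ (P *ᵥ e) = e := by rw [Matrix.mulVec_mulVec, hQP, Matrix.one_mulVec]
    rw [h0, Matrix.mulVec_zero] at h1
    have h2 := congrFun h1 0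
    rw [he] at h2
    simp at h2
  · rw [Matrix.mulVec_mulVec, Matrix.mulVec_mulVec, hAP, hA2P, ← Matrix.mulVec_mulVec,
      ← Matrix.mulVec_mulVec]
    have h1 : Matrix.of ![P *ᵥ e, P *ᵥ (B *ᵥ e), P *ᵥ ((B ^ 2) *ᵥ e)] =
        Matrix.of ![e, B *ᵥ e, (B ^ 2) *ᵥ e] * Pᵀ := by
      ext i j
      fin_cases i <;> fin_cases j <;>
        simp [Matrix.mul_apply, Matrix.mulVec, dotProduct, Fin.sum_univ_three] <;> ring
    rw [h1, Matrix.det_mul, Matrix.det_transpose, abs_mul]
    have h2 : |P.det| = 1 := by
      have h3 : P.det * Q.det = 1 := by rw [← Matrix.det_mul, hPQ, Matrix.det_one]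
      exact Int.isUnit_iff_abs_eq.1 (IsUnit.of_mul_eq_one _ h3)
    rw [h2, mul_one]
    have h4 : (Matrix.of ![e, B *ᵥ e, (B ^ 2) *ᵥ e]).det = B 1 0 ^ 2 * B 2 1 := by
      have h5 : B 2 0 = 0 := hB
      have h6 : (B * B) 2 0 = B 2 1 * B 1 0 := by
        rw [Matrix.mul_apply, Fin.sum_univ_three, h5]; ring
      rw [pow_two B, Matrix.det_fin_three, he]
      simp [Matrix.mulVec, dotProduct, Fin.sum_univ_three, h5, h6]
      ring
    rw [h4, abs_mul, abs_of_nonneg (sq_nonneg (B 1 0))]
    rfl

/-- one of the twenty-seven pairs -/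
lemma mem_of {m n : ℤ} (hd : disc (3 * n + 1) (6 * m - 3 * n + 3) < 0)
    (h1 : (3 * n + 1) + (6 * m - 3 * n + 3) ≠ 0)
    (h2 : 6 * m - 3 * n + 3 ≠ (3 * n + 1) + 2) (P Q B : Matrix (Fin 3) (Fin 3) ℤ)
    (hPQ : P * Q = 1) (hQP : Q * P = 1) (hB : B 2 0 = 0) (hc : Q * H m n * P = B)
    (hs : B 1 0 ^ 2 * (B 2 1).natAbs < 12) :
    IsNRS (H m n) ∧ ¬ IsReduced (H m n) := by
  refine ⟨⟨?_, ?_⟩, fun hr => ?_⟩
  · rw [charpoly_H, chi_map]
    exact irred h1 h2
  · rw [discr_H]; exact hd
  · have h3 := hr B hB ⟨⟨Q, P, hQP, hPQ⟩, hc.symm⟩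
    rw [complexity_H] at h3
    unfold complexity at h3
    rw [Int.abs_eq_natAbs] at h3
    omega

/-- **Exactly twenty-seven** NRS-matrices `H(m, n)` are not ς-reduced. -/
theorem result :
    {p : ℤ × ℤ | IsNRS (H p.1 p.2) ∧ ¬ IsReduced (H p.1 p.2)} = (list27 : Set (ℤ × ℤ)) ∧
      {p : ℤ × ℤ | IsNRS (H p.1 p.2) ∧ ¬ IsReduced (H p.1 p.2)}.ncard = 27 := by
  have key : {p : ℤ × ℤ | IsNRS (H p.1 p.2) ∧ ¬ IsReduced (H p.1 p.2)} =
      (list27 : Set (ℤ × ℤ)) := by
    ext ⟨m, n⟩
    rw [Set.mem_ofPred_eq, Finset.mem_coe]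
    dsimp only
    constructor
    · rintro ⟨⟨hirr, hdisc⟩, hred⟩
      rw [charpoly_H, chi_map] at hirr
      rw [discr_H] at hdisc
      obtain ⟨θ, p, q, h⟩ := exists_root hdisc
      unfold IsReduced at hred
      push Not at hred
      obtain ⟨B, hB, ⟨X, hX⟩, hlt⟩ := hred
      rw [complexity_H] at hlt
      obtain ⟨v, hv, hdet⟩ := complexity_conj hB hX
      have hne : N (3 * n + 1) (6 * m - 3 * n + 3) (v 2)
          (6 * v 0 - 3 * v 1 + (6 * m - 3 * n + 2) * v 2) (3 * v 1 + (3 * n - 1) * v 2) ≠ 0 := by
        apply N_ne_zero h hirr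
        rintro ⟨e1, e2, e3⟩
        apply hv
        rw [e1] at e2 e3
        funext i
        fin_cases i
        · simp; omega
        · simp; omega
        · simpa using e1
      have hN : |N (3 * n + 1) (6 * m - 3 * n + 3) (v 2)
          (6 * v 0 - 3 * v 1 + (6 * m - 3 * n + 2) * v 2) (3 * v 1 + (3 * n - 1) * v 2)| ≤ 198 := by
        rw [← det_H, abs_mul, ← hdet]
        have : |(18 : ℤ)| = 18 := rfl
        rw [this]
        omega
      have hθ1 : θ ≠ 1 := by
        rintro rfl
        have e1 := h.ha
        have e2 := h.hb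
        have e3 := h.hθ
        have e4 : (((3 * n + 1) + (6 * m - 3 * n + 3) : ℤ) : ℝ) = 0 := by
          rw [Int.cast_add, e1, e2]; linarith
        have e5 : (3 * n + 1) + (6 * m - 3 * n + 3) = 0 := by exact_mod_cast e4
        have e6 : (chi ℚ (3 * n + 1) (6 * m - 3 * n + 3)).IsRoot 1 := by
          rw [IsRoot, chi_eval]
          have : ((3 * n + 1 : ℤ) : ℚ) + ((6 * m - 3 * n + 3 : ℤ) : ℚ) = 0 := by exact_mod_cast e5
          linarith
        have e7 := Polynomial.natDegree_eq_of_degree_eq_some
          (Polynomial.degree_eq_one_of_irreducible_of_root hirr e6)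
        rw [chi_natDegree] at e7
        norm_num at e7
      have h6 := Pool.Agent.R336.Hess.C12.main (c := m + 1) (b' := 2 * m - n + 1) (by ring)
        (by ring) h hθ1 (x := v 2)
        (y := 6 * v 0 - 3 * v 1 + (6 * m - 3 * n + 2) * v 2) (z := 3 * v 1 + (3 * n - 1) * v 2) (by
          have e1 : (6 * m - 3 * n + 2) * v 2 = 6 * (m * v 2) - 3 * (n * v 2) + 2 * v 2 := by ring
          have e2 : (3 * n - 1) * v 2 = 3 * (n * v 2) - v 2 := by ring
          rw [e1, e2]
          constructor <;> omega) hN hne
      simp only [E1, E2, List.mem_cons, Prod.mk.injEq, List.not_mem_nil, or_false] at h6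
      rcases h6 with (h7 | h7 | h7 | h7 | h7 | h7 | h7 | h7 | h7 | h7 | h7 | h7 | h7) | (h7 | h7 | h7 | h7 | h7 | h7 | h7 | h7 | h7 | h7 | h7 | h7 | h7 | h7) <;>
        obtain ⟨g1, g2⟩ := h7
      · obtain rfl : n = 1 := by omega
        obtain rfl : m = 0 := by omega
        decide
      · obtain rfl : n = 2 := by omega
        obtain rfl : m = 0 := by omega
        decide
      · obtain rfl : n = 2 := by omega
        obtain rfl : m = 1 := by omega
        decide
      · obtain rfl : n = 3 := by omega
        obtain rfl : m = 0 := by omega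
        decide
      · obtain rfl : n = 3 := by omega
        obtain rfl : m = 1 := by omega
        decide
      · obtain rfl : n = 3 := by omega
        obtain rfl : m = 2 := by omega
        decide
      · obtain rfl : n = 4 := by omega
        obtain rfl : m = 1 := by omega
        decide
      · obtain rfl : n = 4 := by omega
        obtain rfl : m = 2 := by omega
        decide
      · obtain rfl : n = 5 := by omega
        obtain rfl : m = 1 := by omega
        decide
      · obtain rfl : n = 5 := by omega
        obtain rfl : m = 3 := by omega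
        decide
      · obtain rfl : n = 8 := by omega
        obtain rfl : m = 2 := by omega
        decide
      · obtain rfl : n = 27 := by omega
        obtain rfl : m = 10 := by omega
        decide
      · obtain rfl : n = 27 := by omega
        obtain rfl : m = 16 := by omega
        decide
      · obtain rfl : n = -7 := by omega
        obtain rfl : m = -21 := by omega
        decide
      · obtain rfl : n = -4 := by omega
        obtain rfl : m = -8 := by omega
        decide
      · obtain rfl : n = -3 := by omega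
        obtain rfl : m = -6 := by omega
        decide
      · obtain rfl : n = -3 := by omega
        obtain rfl : m = -5 := by omega
        decide
      · obtain rfl : n = -2 := by omega
        obtain rfl : m = -4 := by omega
        decide
      · obtain rfl : n = -2 := by omega
        obtain rfl : m = -3 := by omega
        decide
      · obtain rfl : n = -1 := by omega
        obtain rfl : m = -3 := by omega
        decide
      · obtain rfl : n = -1 := by omega
        obtain rfl : m = -2 := by omega
        decide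
      · obtain rfl : n = 0 := by omega
        obtain rfl : m = -2 := by omega
        decide
      · obtain rfl : n = 0 := by omega
        obtain rfl : m = -1 := by omega
        decide
      · obtain rfl : n = 1 := by omega
        obtain rfl : m = -2 := by omega
        decide
      · obtain rfl : n = 1 := by omega
        obtain rfl : m = -1 := by omega
        decide
      · obtain rfl : n = 2 := by omega
        obtain rfl : m = -2 := by omega
        decide
      · obtain rfl : n = 5 := by omega
        obtain rfl : m = -9 := by omega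
        decide
    · intro h
      simp only [list27, Finset.mem_insert, Finset.mem_singleton, Prod.mk.injEq] at h
      rcases h with h | h | h | h | h | h | h | h | h | h | h | h | h | h | h | h | h | h | h | h | h | h | h | h | h | h | h <;>
        obtain ⟨rfl, rfl⟩ := h
      · exact mem_of (by decide) (by decide) (by decide)
          !![2, -22, -1; 4, -41, -1; 1, -10, 0]
          !![-10, 10, -19; -1, 1, -2; 1, -2, 6]
          !![0, 37, 47; 1, -6, 5; 0, -11, -14]
          (by decide) (by decide) (by decide) (by decide) (by decide)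
      · exact mem_of (by decide) (by decide) (by decide)
          !![1, -5, 0; 2, -9, 0; 1, -4, 1]
          !![-9, 5, 0; -2, 1, 0; 1, -1, 1]
          !![1, -1, 8; 2, -7, 4; 0, -2, -5]
          (by decide) (by decide) (by decide) (by decide) (by decide)
      · exact mem_of (by decide) (by decide) (by decide)
          !![1, -6, 0; 2, -11, 0; 1, -4, 1]
          !![-11, 6, 0; -2, 1, 0; 3, -2, 1]
          !![0, 13, 9; 1, -1, 3; 0, -10, -7]
          (by decide) (by decide) (by decide) (by decide) (by decide)
      · exact mem_of (by decide) (by decide) (by decide)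
          !![1, -5, 0; 2, -9, 0; 1, -4, 1]
          !![-9, 5, 0; -2, 1, 0; 1, -1, 1]
          !![0, 3, 7; 1, -3, 3; 0, -2, -5]
          (by decide) (by decide) (by decide) (by decide) (by decide)
      · exact mem_of (by decide) (by decide) (by decide)
          !![1, -2, 0; 2, -4, -1; 1, -1, 0]
          !![-1, 0, 2; -1, 0, 1; 2, -1, 0]
          !![1, -10, -5; 2, -5, -2; 0, -2, -1]
          (by decide) (by decide) (by decide) (by decide) (by decide)
      · exact mem_of (by decide) (by decide) (by decide)
          !![1, 2, 0; 1, 3, 0; 0, 3, 1]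
          !![3, -2, 0; -1, 1, 0; 3, -3, 1]
          !![0, 4, 1; 1, -7, -3; 0, 9, 2]
          (by decide) (by decide) (by decide) (by decide) (by decide)
      · exact mem_of (by decide) (by decide) (by decide)
          !![1, -2, 0; 1, -4, 1; 1, -1, -1]
          !![5, -2, -2; 2, -1, -1; 3, -1, -2]
          !![0, 8, -5; 1, 5, -5; 0, 11, -7]
          (by decide) (by decide) (by decide) (by decide) (by decide)
      · exact mem_of (by decide) (by decide) (by decide)
          !![1, 2, 0; 1, 3, 0; 0, 3, 1]
          !![3, -2, 0; -1, 1, 0; 3, -3, 1]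
          !![0, 4, 1; 1, -4, -2; 0, 9, 2]
          (by decide) (by decide) (by decide) (by decide) (by decide)
      · exact mem_of (by decide) (by decide) (by decide)
          !![0, -1, 0; 0, -2, -1; 1, -1, 0]
          !![-1, 0, 1; -1, 0, 0; 2, -1, 0]
          !![1, -4, -2; 2, 1, 1; 0, -2, -1]
          (by decide) (by decide) (by decide) (by decide) (by decide)
      · exact mem_of (by decide) (by decide) (by decide)
          !![0, 1, 0; 1, 1, 0; 0, 3, -1]
          !![-1, 1, 0; 1, 0, 0; 3, 0, -1]
          !![0, -2, 1; 1, -1, 1; 0, -3, 2]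
          (by decide) (by decide) (by decide) (by decide) (by decide)
      · exact mem_of (by decide) (by decide) (by decide)
          !![-3, -11, 21; -7, -16, 46; 1, -19, 0]
          !![874, -399, -170; 46, -21, -9; 149, -68, -29]
          !![0, 47, -14; 1, 7, -8; 0, 10, -3]
          (by decide) (by decide) (by decide) (by decide) (by decide)
      · exact mem_of (by decide) (by decide) (by decide)
          !![0, 1, 0; 1, 1, 0; 0, 3, -1]
          !![-1, 1, 0; 1, 0, 0; 3, 0, -1]
          !![0, -2, 1; 1, 2, 0; 0, -3, 2]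
          (by decide) (by decide) (by decide) (by decide) (by decide)
      · exact mem_of (by decide) (by decide) (by decide)
          !![0, 1, 0; 1, 1, 0; 0, 3, -1]
          !![-1, 1, 0; 1, 0, 0; 3, 0, -1]
          !![0, 1, 0; 1, 5, -1; 0, 6, -1]
          (by decide) (by decide) (by decide) (by decide) (by decide)
      · exact mem_of (by decide) (by decide) (by decide)
          !![-4, -13, 27; -9, -19, 58; 1, -22, 0]
          !![1276, -594, -241; 58, -27, -11; 217, -101, -41]
          !![0, 9, -2; 1, 8, -8; 0, 4, -1]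
          (by decide) (by decide) (by decide) (by decide) (by decide)
      · exact mem_of (by decide) (by decide) (by decide)
          !![0, 1, 0; 1, 1, 0; 0, 3, -1]
          !![-1, 1, 0; 1, 0, 0; 3, 0, -1]
          !![0, 1, 0; 1, 8, -2; 0, 6, -1]
          (by decide) (by decide) (by decide) (by decide) (by decide)
      · exact mem_of (by decide) (by decide) (by decide)
          !![1, 2, 0; 1, 3, 0; 0, 3, 1]
          !![3, -2, 0; -1, 1, 0; 3, -3, 1]
          !![0, 4, 1; 1, 5, 1; 0, 9, 2]
          (by decide) (by decide) (by decide) (by decide) (by decide)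
      · exact mem_of (by decide) (by decide) (by decide)
          !![0, 1, 0; 1, 1, 0; 0, 3, -1]
          !![-1, 1, 0; 1, 0, 0; 3, 0, -1]
          !![0, 1, 0; 1, 11, -3; 0, 6, -1]
          (by decide) (by decide) (by decide) (by decide) (by decide)
      · exact mem_of (by decide) (by decide) (by decide)
          !![-1, 0, 0; -3, 0, -1; 1, -1, 0]
          !![-1, 0, 0; -1, 0, -1; 3, -1, 0]
          !![0, 4, 1; 1, 12, 4; 0, -7, -2]
          (by decide) (by decide) (by decide) (by decide) (by decide)
      · exact mem_of (by decide) (by decide) (by decide)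
          !![1, 2, 0; 1, 3, 0; 0, 3, 1]
          !![3, -2, 0; -1, 1, 0; 3, -3, 1]
          !![0, 4, 1; 1, 8, 2; 0, 9, 2]
          (by decide) (by decide) (by decide) (by decide) (by decide)
      · exact mem_of (by decide) (by decide) (by decide)
          !![-1, 1, -1; -3, 1, -2; 1, 2, 0]
          !![4, -2, -1; -2, 1, 1; -7, 3, 2]
          !![0, -7, 2; 1, 16, -4; 0, 11, -3]
          (by decide) (by decide) (by decide) (by decide) (by decide)
      · exact mem_of (by decide) (by decide) (by decide)
          !![-2, 1, 0; -4, 2, -1; 1, -1, 0]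
          !![-1, 0, -1; -1, 0, -2; 2, -1, 0]
          !![1, 8, 4; 2, 13, 7; 0, -2, -1]
          (by decide) (by decide) (by decide) (by decide) (by decide)
      · exact mem_of (by decide) (by decide) (by decide)
          !![10, 1, 4; -5, 2, -1; 1, -1, 0]
          !![-1, -4, -9; -1, -4, -10; 3, 11, 25]
          !![0, -3, -4; 1, 5, -1; 0, 8, 11]
          (by decide) (by decide) (by decide) (by decide) (by decide)
      · exact mem_of (by decide) (by decide) (by decide)
          !![-2, -1, 0; -5, -2, 0; 1, -1, -1]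
          !![2, -1, 0; -5, 2, 0; 7, -3, -1]
          !![0, -7, -5; 1, 23, 16; 0, -10, -7]
          (by decide) (by decide) (by decide) (by decide) (by decide)
      · exact mem_of (by decide) (by decide) (by decide)
          !![-3, 0, -1; -5, 0, -2; 1, -1, 0]
          !![-2, 1, 0; -2, 1, -1; 5, -3, 0]
          !![0, 5, 2; 1, 19, 8; 0, -7, -3]
          (by decide) (by decide) (by decide) (by decide) (by decide)
      · exact mem_of (by decide) (by decide) (by decide)
          !![-3, 1, 0; -8, 3, 0; 1, -1, -1]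
          !![-3, 1, 0; -8, 3, 0; 5, -2, -1]
          !![1, 11, 18; 2, 27, 44; 0, -2, -3]
          (by decide) (by decide) (by decide) (by decide) (by decide)
      · exact mem_of (by decide) (by decide) (by decide)
          !![2, 43, -50; 4, 55, -111; 1, 92, 0]
          !![10212, -4600, -2023; -111, 50, 22; 313, -141, -62]
          !![0, 349, 127; 1, 78, -5; 0, 11, 4]
          (by decide) (by decide) (by decide) (by decide) (by decide)
      · exact mem_of (by decide) (by decide) (by decide)
          !![-1, 40, -41; -2, 55, -73; 1, 74, 0]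
          !![5402, -3034, -665; -73, 41, 9; -203, 114, 25]
          !![0, -205, 77; 1, 85, -4; 0, 8, -3]
          (by decide) (by decide) (by decide) (by decide) (by decide)
  refine ⟨key, ?_⟩
  rw [key, Set.ncard_coe_finset]
  decide

end Pool.Agent.Results.MP_51245c_nt.ExactlyTwentySeven
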